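import Mathlib
open Set Filter Topology
namespace Pool.Agent.Q68.BP

/-- **A strategy of nested open sets gives a residual set** (one direction of the theorem on the
Banach and Mazur game, valid in every topological space). -/
theorem residual_of_strategy {X S : Type*} [TopologicalSpace X] (U : S → Set X)
    (hU : ∀ s, IsOpen (U s)) (s0 : S) (h0 : U s0 = univ) (ext : S → S → Prop)
    (hext : ∀ s s', ext s s' → U s' ⊆ U s)
    (step : ∀ s (V : Set X), IsOpen V → V.Nonempty → V ⊆ U s →
      ∃ s', ext s s' ∧ U s' ⊆ V ∧ (U s').Nonempty)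
    (R : Set X)
    (lim : ∀ c : ℕ → S, c 0 = s0 → (∀ n, ext (c n) (c (n + 1))) → ∀ x, (∀ n, x ∈ U (c n)) → x ∈ R) :
    R ∈ residual X := by
  classical
  -- maximal disjoint families
  have hD : ∀ s : S, ∃ D : Set S, (∀ t ∈ D, ext s t) ∧ D.PairwiseDisjoint U ∧
      ∀ V : Set X, IsOpen V → V.Nonempty → V ⊆ U s → ∃ t ∈ D, (U t ∩ V).Nonempty := by
    intro s
    let P : Set (Set S) := {D | (∀ t ∈ D, ext s t) ∧ D.PairwiseDisjoint U}
    obtain ⟨D, hmax⟩ := zorn_subset P (by
      intro c hc hchain
      refine ⟨⋃₀ c, ⟨?_, ?_⟩, fun t ht => subset_sUnion_of_mem ht⟩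
      · rintro t ⟨A, hA, htA⟩
        exact (hc hA).1 t htA
      · exact (pairwiseDisjoint_sUnion hchain.directedOn).2 fun A hA => (hc hA).2)
    have hDP : D ∈ P := hmax.prop
    refine ⟨D, hDP.1, hDP.2, fun V hV hVne hVs => ?_⟩
    by_contra hc
    push Not at hc
    obtain ⟨s', h1, h2, h3⟩ := step s V hV hVne hVs
    have hdis : ∀ t ∈ D, U t ∩ V = ∅ := fun t ht => hc t ht
    have hs'D : s' ∉ D := by
      intro hm
      have := hdis s' hm
      rw [inter_eq_left.2 h2] at this
      rw [this] at h3
      exact not_nonempty_empty h3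
    have hins : insert s' D ∈ P := by
      refine ⟨?_, ?_⟩
      · rintro t (rfl | ht)
        · exact h1
        · exact hDP.1 t ht
      · rw [pairwiseDisjoint_insert_of_notMem hs'D]
        refine ⟨hDP.2, fun t ht => ?_⟩
        rw [disjoint_iff_inter_eq_empty]
        have := hdis t ht
        ext x
        simp only [mem_inter_iff, mem_empty_iff_false, iff_false, not_and]
        intro hx hxt
        have : x ∈ U t ∩ V := ⟨hxt, h2 hx⟩
        rw [hdis t ht] at this
        exact this
    have := hmax.le_of_ge hins (subset_insert s' D) (mem_insert s' D)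
    exact hs'D this
  choose D hD1 hD2 hD3 using hD
  -- the levels
  let L : ℕ → Set S := fun n => Nat.rec {s0} (fun _ A => ⋃ s ∈ A, D s) n
  have L0 : L 0 = {s0} := rfl
  have Ls : ∀ n, L (n + 1) = ⋃ s ∈ L n, D s := fun n => rfl
  let G : ℕ → Set X := fun n => ⋃ s ∈ L n, U s
  have Gopen : ∀ n, IsOpen (G n) := fun n => isOpen_biUnion fun s _ => hU s
  have Gdense : ∀ n, Dense (G n) := by
    intro n
    induction n with
    | zero =>
      have : G 0 = univ := by
        show (⋃ s ∈ L 0, U s) = univ
        rw [L0]; simp [h0]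
      rw [this]; exact dense_univ
    | succ n ih =>
      rw [dense_iff_inter_open]
      intro V hV hVne
      obtain ⟨x, hxV, hxG⟩ := ih.inter_open_nonempty V hV hVne
      simp only [G, mem_iUnion] at hxG
      obtain ⟨s, hs, hxs⟩ := hxG
      obtain ⟨t, ht, y, hy1, hy2⟩ := hD3 s (V ∩ U s) (hV.inter (hU s)) ⟨x, hxV, hxs⟩
        inter_subset_right
      refine ⟨y, hy2.1, ?_⟩
      simp only [G, mem_iUnion]
      refine ⟨t, ?_, hy1⟩
      rw [Ls]
      simp only [mem_iUnion]
      exact ⟨s, hs, ht⟩
  have Ldis : ∀ n, (L n).PairwiseDisjoint U := by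
    intro n
    induction n with
    | zero => rw [L0]; exact pairwiseDisjoint_singleton _ _
    | succ n ih =>
      intro a ha b hb hab
      rw [Ls] at ha hb
      simp only [mem_iUnion] at ha hb
      obtain ⟨s, hs, has⟩ := ha
      obtain ⟨t, ht, hbt⟩ := hb
      by_cases hst : s = t
      · subst hst
        exact hD2 s has hbt hab
      · exact (ih hs ht hst).mono (hext _ _ (hD1 s a has)) (hext _ _ (hD1 t b hbt))
  have hres : (⋂ n, G n) ∈ residual X :=
    countable_iInter_mem.2 fun n => residual_of_dense_open (Gopen n) (Gdense n)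
  refine mem_of_superset hres fun x hx => ?_
  rw [mem_iInter] at hx
  have hch : ∀ n, ∃ s ∈ L n, x ∈ U s := fun n => by
    have := hx n
    simp only [G, mem_iUnion] at this
    obtain ⟨s, hs, h⟩ := this
    exact ⟨s, hs, h⟩
  choose c hc1 hc2 using hch
  refine lim c ?_ (fun n => ?_) x hc2
  · have := hc1 0
    rw [L0] at this
    exact this
  · have := hc1 (n + 1)
    rw [Ls] at this
    simp only [mem_iUnion] at this
    obtain ⟨a, ha, hD⟩ := this
    have hxa : x ∈ U a := hext _ _ (hD1 a _ hD) (hc2 (n + 1))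
    have : a = c n := by
      by_contra hne
      exact disjoint_left.1 (Ldis n ha (hc1 n) hne) hxa (hc2 n)
    rw [← this]
    exact hD1 a _ hD

end Pool.Agent.Q68.BP
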