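import Mathlib
open Set Filter Topology
noncomputable section
namespace Pool.Agent.Q68.BP

/-- The triangle wave. -/
def W (u : ℝ) : ℝ := Real.arcsin (Real.sin u)

lemma W_cont : Continuous W := Real.continuous_arcsin.comp Real.continuous_sin

lemma W_mem (u : ℝ) : -(Real.pi / 2) ≤ W u ∧ W u ≤ Real.pi / 2 :=
  ⟨Real.neg_pi_div_two_le_arcsin _, Real.arcsin_le_pi_div_two _⟩

lemma W_id {u : ℝ} (h1 : -(Real.pi / 2) ≤ u) (h2 : u ≤ Real.pi / 2) : W u = u :=
  Real.arcsin_sin h1 h2

lemma W_per (u : ℝ) (k : ℤ) : W (u + k * (2 * Real.pi)) = W u := by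
  unfold W; rw [Real.sin_add_int_mul_two_pi]

lemma W_refl {u : ℝ} (h1 : Real.pi / 2 ≤ u) (h2 : u ≤ 3 * Real.pi / 2) : W u = Real.pi - u := by
  unfold W
  rw [← Real.sin_pi_sub]
  exact Real.arcsin_sin (by linarith) (by linarith)

/-- Each lap of the wave is an isometry. -/
lemma W_lap (k : ℤ) : (∀ u, k * Real.pi - Real.pi / 2 ≤ u → u ≤ k * Real.pi + Real.pi / 2 →
      W u = u - k * Real.pi) ∨
    (∀ u, k * Real.pi - Real.pi / 2 ≤ u → u ≤ k * Real.pi + Real.pi / 2 →
      W u = k * Real.pi - u) := by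
  rcases Int.even_or_odd k with ⟨m, hm⟩ | ⟨m, hm⟩
  · left
    intro u h1 h2
    have hk : (k:ℝ) = m + m := by rw [hm]; push_cast; ring
    have e : W u = W (u - m * (2 * Real.pi)) := by
      have := W_per (u - m * (2 * Real.pi)) m
      rw [sub_add_cancel] at this; exact this
    rw [hk] at h1 h2 ⊢
    rw [e, W_id (by linarith) (by linarith)]
    ring
  · right
    intro u h1 h2
    have hk : (k:ℝ) = 2 * m + 1 := by rw [hm]; push_cast; ring
    have e : W u = W (u - m * (2 * Real.pi)) := by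
      have := W_per (u - m * (2 * Real.pi)) m
      rw [sub_add_cancel] at this; exact this
    rw [hk] at h1 h2 ⊢
    rw [e, W_refl (by linarith) (by linarith)]
    ring

lemma lap_index (a : ℝ) : ∃ k : ℤ, k * Real.pi - Real.pi / 2 ≤ a ∧ a < k * Real.pi + Real.pi / 2 := by
  have hpi := Real.pi_pos
  refine ⟨⌊a / Real.pi + 1 / 2⌋, ?_, ?_⟩
  · have := Int.floor_le (a / Real.pi + 1 / 2)
    have h := mul_le_mul_of_nonneg_right this hpi.le
    have e : (a / Real.pi + 1 / 2) * Real.pi = a + Real.pi / 2 := by field_simp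
    rw [e] at h; linarith
  · have := Int.lt_floor_add_one (a / Real.pi + 1 / 2)
    have h := mul_lt_mul_of_pos_right this hpi
    have e : (a / Real.pi + 1 / 2) * Real.pi = a + Real.pi / 2 := by field_simp
    rw [e] at h; linarith

lemma W_isom {k : ℤ} {u v : ℝ} (h1 : k * Real.pi - Real.pi / 2 ≤ u)
    (h2 : u ≤ k * Real.pi + Real.pi / 2) (h3 : k * Real.pi - Real.pi / 2 ≤ v)
    (h4 : v ≤ k * Real.pi + Real.pi / 2) : |W u - W v| = |u - v| := by
  rcases W_lap k with h | h
  · rw [h u h1 h2, h v h3 h4]; congr 1; ring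
  · rw [h u h1 h2, h v h3 h4, abs_sub_comm u v]; congr 1; ring

lemma W_full {k : ℤ} {a b : ℝ} (ha : a ≤ k * Real.pi - Real.pi / 2)
    (hb : k * Real.pi + Real.pi / 2 ≤ b) {w : ℝ} (h1 : -(Real.pi / 2) ≤ w)
    (h2 : w ≤ Real.pi / 2) : ∃ t, a ≤ t ∧ t ≤ b ∧ W t = w := by
  rcases W_lap k with h | h
  · exact ⟨k * Real.pi + w, by linarith, by linarith,
      by rw [h _ (by linarith) (by linarith)]; ring⟩
  · exact ⟨k * Real.pi - w, by linarith, by linarith,
      by rw [h _ (by linarith) (by linarith)]; ring⟩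

/-- Either the image is everything, or a half of the interval is mapped isometrically. -/
lemma W_dich {a b : ℝ} (hab : a < b) :
    (∀ w, -(Real.pi / 2) ≤ w → w ≤ Real.pi / 2 → ∃ t, a ≤ t ∧ t ≤ b ∧ W t = w) ∨
    ∃ c d, a ≤ c ∧ c < d ∧ d ≤ b ∧ (b - a) / 2 ≤ d - c ∧
      ∀ u v, c ≤ u → u ≤ d → c ≤ v → v ≤ d → |W u - W v| = |u - v| := by
  have hpi := Real.pi_pos
  obtain ⟨k, hk1, hk2⟩ := lap_index a
  rcases le_or_gt b (k * Real.pi + Real.pi / 2) with h | h
  · right
    refine ⟨a, b, le_rfl, hab, le_rfl, by linarith, fun u v h1 h2 h3 h4 => ?_⟩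
    exact W_isom (k := k) (by linarith) (by linarith) (by linarith) (by linarith)
  have hk' : (((k + 1 : ℤ)) : ℝ) = k + 1 := by push_cast; ring
  rcases le_or_gt b ((k + 1 : ℤ) * Real.pi + Real.pi / 2) with h' | h'
  · right
    rw [hk'] at h'
    rcases le_total ((b - a) / 2) (k * Real.pi + Real.pi / 2 - a) with h5 | h5
    · refine ⟨a, k * Real.pi + Real.pi / 2, le_rfl, hk2, h.le, h5, fun u v h1 h2 h3 h4 => ?_⟩
      exact W_isom (k := k) (by linarith) (by linarith) (by linarith) (by linarith)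
    · refine ⟨k * Real.pi + Real.pi / 2, b, hk2.le, h, le_rfl, by linarith,
        fun u v h1 h2 h3 h4 => ?_⟩
      refine W_isom (k := k + 1) ?_ ?_ ?_ ?_ <;> rw [hk'] <;> linarith
  · left
    intro w h1 h2
    refine W_full (k := k + 1) ?_ h'.le h1 h2
    rw [hk']; linarith

/-- The wave is steep to the right of every point. -/
lemma W_right (u : ℝ) : ∃ l > 0, (∀ y z, u ≤ z → z ≤ y → y ≤ u + l → W y - W z = y - z) ∨
    (∀ y z, u ≤ z → z ≤ y → y ≤ u + l → W y - W z = -(y - z)) := by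
  obtain ⟨k, hk1, hk2⟩ := lap_index u
  refine ⟨k * Real.pi + Real.pi / 2 - u, by linarith, ?_⟩
  rcases W_lap k with h | h
  · left
    intro y z h1 h2 h3
    rw [h y (by linarith) (by linarith), h z (by linarith) (by linarith)]; ring
  · right
    intro y z h1 h2 h3
    rw [h y (by linarith) (by linarith), h z (by linarith) (by linarith)]; ring

/-- Folding the line onto `[p,q]`. -/
def Fo (p q t : ℝ) : ℝ := p + (q - p) / Real.pi * (W (Real.pi / (q - p) * (t - p) - Real.pi / 2)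
  + Real.pi / 2)

lemma Fo_cont (p q : ℝ) : Continuous (Fo p q) := by
  unfold Fo
  exact continuous_const.add (continuous_const.mul
    ((W_cont.comp (by fun_prop)).add continuous_const))

lemma Fo_mem {p q : ℝ} (h : p < q) (t : ℝ) : p ≤ Fo p q t ∧ Fo p q t ≤ q := by
  have hpi := Real.pi_pos
  have hd : 0 < q - p := by linarith
  have hc : 0 < (q - p) / Real.pi := by positivity
  obtain ⟨h1, h2⟩ := W_mem (Real.pi / (q - p) * (t - p) - Real.pi / 2)
  unfold Fo
  constructor
  · have : 0 ≤ (q - p) / Real.pi * (W (Real.pi / (q - p) * (t - p) - Real.pi / 2)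
      + Real.pi / 2) := mul_nonneg hc.le (by linarith)
    linarith
  · have : (q - p) / Real.pi * (W (Real.pi / (q - p) * (t - p) - Real.pi / 2)
      + Real.pi / 2) ≤ (q - p) / Real.pi * Real.pi :=
      mul_le_mul_of_nonneg_left (by linarith) hc.le
    rw [div_mul_cancel₀ _ hpi.ne'] at this
    linarith

lemma Fo_id {p q : ℝ} (h : p < q) {t : ℝ} (h1 : p ≤ t) (h2 : t ≤ q) : Fo p q t = t := by
  have hpi := Real.pi_pos
  have hd : 0 < q - p := by linarith
  unfold Fo
  rw [W_id]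
  · field_simp; ring
  · have : 0 ≤ Real.pi / (q - p) * (t - p) := mul_nonneg (by positivity) (by linarith)
    linarith
  · have : Real.pi / (q - p) * (t - p) ≤ Real.pi / (q - p) * (q - p) :=
      mul_le_mul_of_nonneg_left (by linarith) (by positivity)
    rw [div_mul_cancel₀ _ hd.ne'] at this
    linarith

lemma Fo_per {p q : ℝ} (h : p < q) (t : ℝ) (k : ℕ) :
    Fo p q (t + 2 * (q - p) * k) = Fo p q t := by
  have hd : (q - p) ≠ 0 := by linarith
  unfold Fo
  have e : Real.pi / (q - p) * (t + 2 * (q - p) * k - p) - Real.pi / 2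
      = (Real.pi / (q - p) * (t - p) - Real.pi / 2) + (k : ℤ) * (2 * Real.pi) := by
    push_cast
    field_simp
    ring
  rw [e, W_per]

/-- The folded affine map with speed `s`. -/
lemma Fo_dich {p q v s x₀ : ℝ} (h : p < q) (hs : 0 < s) {a b : ℝ} (hab : a < b) :
    (∀ w, p ≤ w → w ≤ q → ∃ t, a ≤ t ∧ t ≤ b ∧ Fo p q (v + s * (t - x₀)) = w) ∨
    ∃ c d, a ≤ c ∧ c < d ∧ d ≤ b ∧ (b - a) / 2 ≤ d - c ∧
      |Fo p q (v + s * (c - x₀)) - Fo p q (v + s * (d - x₀))| = s * (d - c) := by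
  have hpi := Real.pi_pos
  have hd : 0 < q - p := by linarith
  obtain ⟨σ, hσ⟩ : ∃ σ, σ = Real.pi / (q - p) * s := ⟨_, rfl⟩
  have hσ0 : 0 < σ := by rw [hσ]; positivity
  obtain ⟨κ, hκ⟩ : ∃ κ, κ = Real.pi / (q - p) * (v - s * x₀ - p) - Real.pi / 2 := ⟨_, rfl⟩
  have e : ∀ t, Real.pi / (q - p) * (v + s * (t - x₀) - p) - Real.pi / 2 = σ * t + κ := by
    intro t; rw [hσ, hκ]; ring
  have hinv : ∀ t, σ * ((t - κ) / σ) + κ = t := fun t => by field_simp; ring
  rcases W_dich (show σ * a + κ < σ * b + κ by nlinarith) with hfull | ⟨c, d, h1, h2, h3, h4, h5⟩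
  · left
    intro w hw1 hw2
    obtain ⟨t, ht1, ht2, ht3⟩ := hfull (Real.pi / (q - p) * (w - p) - Real.pi / 2)
      (by have : 0 ≤ Real.pi / (q - p) * (w - p) := mul_nonneg (by positivity) (by linarith)
          linarith)
      (by have : Real.pi / (q - p) * (w - p) ≤ Real.pi / (q - p) * (q - p) :=
            mul_le_mul_of_nonneg_left (by linarith) (by positivity)
          rw [div_mul_cancel₀ _ hd.ne'] at this
          linarith)
    refine ⟨(t - κ) / σ, ?_, ?_, ?_⟩
    · rw [le_div_iff₀ hσ0]; linarith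
    · rw [div_le_iff₀ hσ0]; linarith
    · unfold Fo
      rw [e, hinv, ht3]
      field_simp
      ring
  · right
    refine ⟨(c - κ) / σ, (d - κ) / σ, ?_, ?_, ?_, ?_, ?_⟩
    · rw [le_div_iff₀ hσ0]; linarith
    · exact div_lt_div_of_pos_right (by linarith) hσ0
    · rw [div_le_iff₀ hσ0]; linarith
    · rw [← sub_div, le_div_iff₀ hσ0]; nlinarith
    · have h6 := h5 c d le_rfl h2.le h2.le le_rfl
      unfold Fo
      rw [e, e, hinv, hinv]
      have e2 : p + (q - p) / Real.pi * (W c + Real.pi / 2)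
          - (p + (q - p) / Real.pi * (W d + Real.pi / 2)) = (q - p) / Real.pi * (W c - W d) := by
        ring
      rw [e2, abs_mul, h6, abs_of_pos (by positivity), abs_sub_comm, abs_of_pos (by linarith)]
      rw [hσ]
      field_simp
      ring

/-- Steepness of the folded affine map. -/
lemma Fo_right {p q v s x₀ : ℝ} (h : p < q) (hs : 0 < s) (x : ℝ) :
    ∃ l > 0, (∀ y z, x ≤ z → z ≤ y → y ≤ x + l →
        Fo p q (v + s * (y - x₀)) - Fo p q (v + s * (z - x₀)) = s * (y - z)) ∨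
      (∀ y z, x ≤ z → z ≤ y → y ≤ x + l →
        Fo p q (v + s * (y - x₀)) - Fo p q (v + s * (z - x₀)) = -(s * (y - z))) := by
  have hpi := Real.pi_pos
  have hd : 0 < q - p := by linarith
  obtain ⟨σ, hσ⟩ : ∃ σ, σ = Real.pi / (q - p) * s := ⟨_, rfl⟩
  have hσ0 : 0 < σ := by rw [hσ]; positivity
  obtain ⟨κ, hκ⟩ : ∃ κ, κ = Real.pi / (q - p) * (v - s * x₀ - p) - Real.pi / 2 := ⟨_, rfl⟩
  have e : ∀ t, Real.pi / (q - p) * (v + s * (t - x₀) - p) - Real.pi / 2 = σ * t + κ := by
    intro t; rw [hσ, hκ]; ring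
  obtain ⟨l, hl, hor⟩ := W_right (σ * x + κ)
  have key : ∀ y z, Fo p q (v + s * (y - x₀)) - Fo p q (v + s * (z - x₀))
      = (q - p) / Real.pi * (W (σ * y + κ) - W (σ * z + κ)) := by
    intro y z; unfold Fo; rw [e, e]; ring
  have hb : ∀ y, y ≤ x + l / σ → σ * y + κ ≤ σ * x + κ + l := by
    intro y hy
    have := mul_le_mul_of_nonneg_left hy hσ0.le
    rw [mul_add, mul_div_cancel₀ _ hσ0.ne'] at this
    linarith
  refine ⟨l / σ, by positivity, ?_⟩
  rcases hor with h1 | h1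
  · left
    intro y z a1 a2 a3
    rw [key, h1 _ _ (by nlinarith) (by nlinarith) (hb y a3), hσ]
    field_simp
    ring
  · right
    intro y z a1 a2 a3
    rw [key, h1 _ _ (by nlinarith) (by nlinarith) (hb y a3), hσ]
    field_simp
    ring

end Pool.Agent.Q68.BP
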