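import Pool.Agent.Q68.BP.Fold
open Set Filter Topology
noncomputable section
namespace Pool.Agent.Q68.BP

/-- Density of the periodic points in the unit interval. -/
def PD (F : ℝ → ℝ) : Prop :=
  ∀ a b, 0 ≤ a → a < b → b ≤ 1 → ∃ x, a < x ∧ x < b ∧ ∃ n, 0 < n ∧ F^[n] x = x

/-- The unit interval is mapped into itself. -/
def UU (F : ℝ → ℝ) : Prop := ∀ x, 0 ≤ x → x ≤ 1 → 0 ≤ F x ∧ F x ≤ 1

lemma UU.iter {F : ℝ → ℝ} (h : UU F) (n : ℕ) : UU (F^[n]) := by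
  induction n with
  | zero => intro x h0 h1; exact ⟨h0, h1⟩
  | succ n ih =>
    intro x h0 h1
    rw [Function.iterate_succ_apply']
    obtain ⟨h2, h3⟩ := ih x h0 h1
    exact h _ h2 h3

/-- A periodic point whose orbit avoids a given finite set. -/
lemma PD.avoid {F : ℝ → ℝ} (h : PD F) {Z : Set ℝ} (hZ : Z.Finite) {a b : ℝ} (ha : 0 ≤ a)
    (hab : a < b) (hb : b ≤ 1) :
    ∃ x, a < x ∧ x < b ∧ ∃ n, 0 < n ∧ F^[n] x = x ∧ ∀ k, F^[k] x ∉ Z := by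
  obtain ⟨B, hB⟩ : ∃ B : Set ℝ, B = ⋃ z ∈ Z, {y | (∃ n, 0 < n ∧ F^[n] z = z) ∧
    ∃ j, F^[j] z = y} := ⟨_, rfl⟩
  have hBf : B.Finite := by
    rw [hB]
    refine hZ.biUnion fun z _ => ?_
    by_cases hz : ∃ n, 0 < n ∧ F^[n] z = z
    · obtain ⟨n, hn, hz'⟩ := hz
      refine ((Set.finite_lt_nat n).image fun j => F^[j] z).subset ?_
      rintro y ⟨-, j, rfl⟩
      refine ⟨j % n, Nat.mod_lt _ hn, ?_⟩
      exact Function.IsPeriodicPt.iterate_mod_apply (f := F) (n := n) (x := z) hz' j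
    · convert Set.finite_empty (α := ℝ)
      ext y
      simp only [mem_empty_iff_false, iff_false]
      rintro ⟨h1, -⟩
      exact hz h1
  obtain ⟨c, hc⟩ := ((Ioo_infinite hab).sdiff hBf).nonempty
  have ho : IsOpen (Ioo a b \ B) := isOpen_Ioo.sdiff hBf.isClosed
  obtain ⟨l, u, hlu, hsub⟩ := mem_nhds_iff_exists_Ioo_subset.1 (ho.mem_nhds hc)
  have h1 : Ioo l u ⊆ Ioo a b := fun y hy => (hsub hy).1
  rw [Ioo_subset_Ioo_iff (hlu.1.trans hlu.2)] at h1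
  obtain ⟨x, hx1, hx2, n, hn, hx3⟩ := h l u (ha.trans h1.1) (hlu.1.trans hlu.2) (h1.2.trans hb)
  have hxB : x ∉ B := (hsub ⟨hx1, hx2⟩).2
  refine ⟨x, lt_of_le_of_lt h1.1 hx1, lt_of_lt_of_le hx2 h1.2, n, hn, hx3, fun k hk => hxB ?_⟩
  rw [hB, mem_iUnion₂]
  refine ⟨_, hk, ⟨n, hn, ?_⟩, n * k - k, ?_⟩
  · rw [← Function.iterate_add_apply, add_comm, Function.iterate_add_apply, hx3]
  · rw [← Function.iterate_add_apply, Nat.sub_add_cancel (Nat.le_mul_of_pos_left k hn)]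
    exact Function.IsPeriodicPt.mul_const (f := F) (m := n) (x := x) hx3 k

/-- Locating a point in a cell. -/
lemma locate {h : ℝ} (hh : 0 < h) {M : ℕ} (hM : ((M:ℝ) + 1) * h = 1) {x : ℝ} (h0 : 0 ≤ x)
    (h1 : x < 1) : ∃ i : ℕ, i ≤ M ∧ (i:ℝ) * h ≤ x ∧ x < ((i:ℝ) + 1) * h := by
  refine ⟨⌊x / h⌋₊, ?_, ?_, ?_⟩
  · have : ⌊x / h⌋₊ < M + 1 := by
      rw [Nat.floor_lt (by positivity), div_lt_iff₀ hh]
      push_cast; rw [hM]; exact h1
    omega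
  · have := Nat.floor_le (show 0 ≤ x / h by positivity)
    rwa [le_div_iff₀ hh] at this
  · have := Nat.lt_floor_add_one (x / h)
    rwa [div_lt_iff₀ hh] at this

lemma cell_unique {h : ℝ} (hh : 0 < h) {i j : ℕ} {x : ℝ} (h1 : (i:ℝ) * h < x)
    (h2 : x < ((i:ℝ) + 1) * h) (h3 : (j:ℝ) * h < x) (h4 : x < ((j:ℝ) + 1) * h) : i = j := by
  have a1 : (i:ℝ) < (j:ℝ) + 1 := lt_of_mul_lt_mul_right (h1.trans h4) hh.le
  have a2 : (j:ℝ) < (i:ℝ) + 1 := lt_of_mul_lt_mul_right (h3.trans h2) hh.le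
  have a3 : i < j + 1 := by exact_mod_cast a1
  have a4 : j < i + 1 := by exact_mod_cast a2
  omega

/-- The transition relation between the cells. -/
def E (F : ℝ → ℝ) (h : ℝ) (M : ℕ) (i j : ℕ) : Prop :=
  i ≤ M ∧ j ≤ M ∧ ∃ x, (i:ℝ) * h < x ∧ x < ((i:ℝ) + 1) * h ∧ (j:ℝ) * h < F x ∧
    F x < ((j:ℝ) + 1) * h

/-- The grid. -/
def grid (h : ℝ) (M : ℕ) : Set ℝ := (fun i : ℕ => (i:ℝ) * h) '' {i | i < M + 2}

lemma grid_finite (h : ℝ) (M : ℕ) : (grid h M).Finite := (Set.finite_lt_nat _).image _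

lemma locate_ng {h : ℝ} (hh : 0 < h) {M : ℕ} (hM : ((M:ℝ) + 1) * h = 1) {x : ℝ} (h0 : 0 ≤ x)
    (h1 : x ≤ 1) (hg : x ∉ grid h M) :
    ∃ i : ℕ, i ≤ M ∧ (i:ℝ) * h < x ∧ x < ((i:ℝ) + 1) * h := by
  have hx1 : x ≠ 1 := by
    rintro rfl
    exact hg ⟨M + 1, by show M + 1 < M + 2; omega, by push_cast; exact hM⟩
  obtain ⟨i, hi, h2, h3⟩ := locate hh hM h0 (lt_of_le_of_ne h1 hx1)
  refine ⟨i, hi, lt_of_le_of_ne h2 ?_, h3⟩
  intro he
  exact hg ⟨i, by show i < M + 2; omega, he⟩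

section main

variable {F : ℝ → ℝ} (hFc : Continuous F) (hFU : UU F) (hFP : PD F) {h : ℝ} (hh : 0 < h)
  {M : ℕ} (hM : ((M:ℝ) + 1) * h = 1)

include hh hM in
lemma cell_le_one {i : ℕ} (hi : i ≤ M) : ((i:ℝ) + 1) * h ≤ 1 := by
  rw [← hM]
  have : (i:ℝ) ≤ M := by exact_mod_cast hi
  nlinarith

include hFP hFU hh hM in
/-- In every open piece of a cell there is a periodic point with a coded orbit. -/
lemma coded {a b : ℝ} (ha : 0 ≤ a) (hab : a < b) (hb : b ≤ 1) :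
    ∃ x, a < x ∧ x < b ∧ ∃ n, 0 < n ∧ F^[n] x = x ∧ ∃ c : ℕ → ℕ, ∀ k, c k ≤ M ∧
      (c k:ℝ) * h < F^[k] x ∧ F^[k] x < ((c k:ℝ) + 1) * h := by
  obtain ⟨x, h1, h2, n, hn, h3, h4⟩ := hFP.avoid (grid_finite h M) ha hab hb
  have h5 : ∀ k, ∃ i : ℕ, i ≤ M ∧ (i:ℝ) * h < F^[k] x ∧ F^[k] x < ((i:ℝ) + 1) * h := by
    intro k
    obtain ⟨h6, h7⟩ := hFU.iter k x (by linarith) (by linarith)
    exact locate_ng hh hM h6 h7 (h4 k)
  choose c hc using h5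
  exact ⟨x, h1, h2, n, hn, h3, c, hc⟩

include hFc in
/-- From an open condition to an interval. -/
lemma open_piece {i : ℕ} {P : Set ℝ} (hP : IsOpen P) {x : ℝ} (h1 : (i:ℝ) * h < x)
    (h2 : x < ((i:ℝ) + 1) * h) (h3 : F x ∈ P) :
    ∃ l u, l < u ∧ (i:ℝ) * h ≤ l ∧ u ≤ ((i:ℝ) + 1) * h ∧ ∀ y, l < y → y < u → F y ∈ P := by
  have ho : IsOpen (Ioo ((i:ℝ) * h) (((i:ℝ) + 1) * h) ∩ F ⁻¹' P) :=
    isOpen_Ioo.inter (hP.preimage hFc)
  obtain ⟨l, u, hlu, hsub⟩ := mem_nhds_iff_exists_Ioo_subset.1 (ho.mem_nhds ⟨⟨h1, h2⟩, h3⟩)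
  have h4 : Ioo l u ⊆ Ioo ((i:ℝ) * h) (((i:ℝ) + 1) * h) := fun y hy => (hsub hy).1
  have h5 := hlu.1.trans hlu.2
  rw [Ioo_subset_Ioo_iff h5] at h4
  exact ⟨l, u, h5, h4.1, h4.2, fun y h6 h7 => (hsub ⟨h6, h7⟩).2⟩

include hFc hFP hFU hh hM in
/-- If `F` has a value in an open set `P` on the interior of the cell `i`, then some cell meeting
`P` is a successor of `i`, through a periodic point. -/
lemma coded_in {i : ℕ} (hi : i ≤ M) {P : Set ℝ} (hP : IsOpen P) {x : ℝ} (h1 : (i:ℝ) * h < x)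
    (h2 : x < ((i:ℝ) + 1) * h) (h3 : F x ∈ P) :
    ∃ p n, 0 < n ∧ F^[n] p = p ∧ F p ∈ P ∧ ∃ c : ℕ → ℕ, c 0 = i ∧ ∀ k, c k ≤ M ∧
      (c k:ℝ) * h < F^[k] p ∧ F^[k] p < ((c k:ℝ) + 1) * h := by
  obtain ⟨l, u, hlu, h4, h5, h6⟩ := open_piece hFc hP h1 h2 h3
  have h7 := cell_le_one hh hM hi
  obtain ⟨p, h8, h9, n, hn, h10, c, hc⟩ := coded hFU hFP hh hM
    (le_trans (by positivity) h4) hlu (h5.trans h7)
  refine ⟨p, n, hn, h10, h6 p h8 h9, c, ?_, hc⟩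
  obtain ⟨-, h11, h12⟩ := hc 0
  exact cell_unique hh h11 h12 (by show (i:ℝ) * h < p; linarith) (by show p < _; linarith)

lemma E_of_code {p : ℝ} {c : ℕ → ℕ} (hc : ∀ k, c k ≤ M ∧
      (c k:ℝ) * h < F^[k] p ∧ F^[k] p < ((c k:ℝ) + 1) * h) (k : ℕ) : E F h M (c k) (c (k + 1)) := by
  refine ⟨(hc k).1, (hc (k + 1)).1, F^[k] p, (hc k).2.1, (hc k).2.2, ?_⟩
  have := (hc (k + 1)).2
  rw [Function.iterate_succ_apply'] at this
  exact this

include hFc hFP hFU hh hM in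
lemma E_back {i j : ℕ} (hE : E F h M i j) : Relation.ReflTransGen (E F h M) j i := by
  obtain ⟨hi, hj, x, h1, h2, h3, h4⟩ := hE
  obtain ⟨p, n, hn, h5, h6, c, hc0, hc⟩ := coded_in hFc hFU hFP hh hM hi
    (isOpen_Ioo (a := (j:ℝ) * h) (b := ((j:ℝ) + 1) * h)) h1 h2 ⟨h3, h4⟩
  have hc1 : c 1 = j := cell_unique hh (hc 1).2.1 (hc 1).2.2 h6.1 h6.2
  have hcn : c n = i := by
    have h7 := (hc n).2
    rw [h5] at h7
    have h8 := (hc 0).2
    rw [← hc0]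
    exact cell_unique hh h7.1 h7.2 h8.1 h8.2
  have hk : ∀ k, Relation.ReflTransGen (E F h M) (c 1) (c (1 + k)) := by
    intro k
    induction k with
    | zero => exact Relation.ReflTransGen.refl
    | succ k ih => exact ih.tail (E_of_code hc (1 + k))
  have := hk (n - 1)
  rw [show 1 + (n - 1) = n by omega, hc1, hcn] at this
  exact this

include hFc hFP hFU hh hM in
lemma path_back {i j : ℕ} (hE : Relation.ReflTransGen (E F h M) i j) :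
    Relation.ReflTransGen (E F h M) j i := by
  induction hE with
  | refl => exact Relation.ReflTransGen.refl
  | tail _ h2 ih => exact (E_back hFc hFU hFP hh hM h2).trans ih

include hFc hFP hFU hh hM in
/-- The range of the transitions from a cell. -/
lemma range_cell {i : ℕ} (hi : i ≤ M) : ∃ p q : ℕ, p ≤ q ∧ q ≤ M ∧
    (∀ j, p ≤ j → j ≤ q → E F h M i j) ∧
    (∀ x, (i:ℝ) * h ≤ x → x ≤ ((i:ℝ) + 1) * h → (p:ℝ) * h ≤ F x ∧ F x ≤ ((q:ℝ) + 1) * h) := by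
  classical
  -- points of the open cell dominate
  have key : ∀ P : Set ℝ, IsOpen P → (∃ x, (i:ℝ) * h ≤ x ∧ x ≤ ((i:ℝ) + 1) * h ∧ F x ∈ P) →
      ∃ j y, E F h M i j ∧ y ∈ P ∧ (j:ℝ) * h < y ∧ y < ((j:ℝ) + 1) * h := by
    intro P hP ⟨x, h1, h2, h3⟩
    have hx : ∃ x, (i:ℝ) * h < x ∧ x < ((i:ℝ) + 1) * h ∧ F x ∈ P := by
      have hcl : x ∈ closure (Ioo ((i:ℝ) * h) (((i:ℝ) + 1) * h)) := by
        rw [closure_Ioo (by nlinarith)]; exact ⟨h1, h2⟩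
      rw [mem_closure_iff] at hcl
      obtain ⟨y, hy1, hy2⟩ := hcl _ (hP.preimage hFc) h3
      exact ⟨y, hy2.1, hy2.2, hy1⟩
    obtain ⟨x, h1, h2, h3⟩ := hx
    obtain ⟨p, n, hn, h5, h6, c, hc0, hc⟩ := coded_in hFc hFU hFP hh hM hi hP h1 h2 h3
    refine ⟨c 1, F p, ?_, h6, (hc 1).2.1, (hc 1).2.2⟩
    have := E_of_code hc 0
    rwa [hc0] at this
  have hne : ∃ j, E F h M i j := by
    obtain ⟨j, y, h1, -⟩ := key univ isOpen_univ ⟨(i:ℝ) * h, le_rfl, by nlinarith, mem_univ _⟩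
    exact ⟨j, h1⟩
  obtain ⟨D, hD⟩ : ∃ D : Finset ℕ, ∀ j, j ∈ D ↔ E F h M i j := by
    refine ⟨(Finset.range (M + 1)).filter (E F h M i), fun j => ?_⟩
    rw [Finset.mem_filter, Finset.mem_range]
    exact ⟨fun h1 => h1.2, fun h1 => ⟨by have := h1.2.1; omega, h1⟩⟩
  have hDne : D.Nonempty := by
    obtain ⟨j, hj⟩ := hne
    exact ⟨j, (hD j).2 hj⟩
  obtain ⟨p, hp⟩ : ∃ p, p = D.min' hDne := ⟨_, rfl⟩
  obtain ⟨q, hq⟩ : ∃ q, q = D.max' hDne := ⟨_, rfl⟩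
  have hpE : E F h M i p := (hD p).1 (by rw [hp]; exact D.min'_mem hDne)
  have hqE : E F h M i q := (hD q).1 (by rw [hq]; exact D.max'_mem hDne)
  have hpmin : ∀ j, E F h M i j → p ≤ j := fun j hj => by
    rw [hp]; exact D.min'_le j ((hD j).2 hj)
  have hqmax : ∀ j, E F h M i j → j ≤ q := fun j hj => by
    rw [hq]; exact D.le_max' j ((hD j).2 hj)
  refine ⟨p, q, hpmin q hqE, hqE.2.1, ?_, ?_⟩
  · intro j h1 h2
    rcases eq_or_lt_of_le h1 with rfl | h1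
    · exact hpE
    rcases eq_or_lt_of_le h2 with rfl | h2
    · exact hqE
    obtain ⟨-, -, x, a1, a2, a3, a4⟩ := hpE
    obtain ⟨-, hqM, y, b1, b2, b3, b4⟩ := hqE
    have c1 : ((p:ℝ) + 1) * h ≤ (j:ℝ) * h := by
      have : (p:ℝ) + 1 ≤ j := by exact_mod_cast h1
      exact mul_le_mul_of_nonneg_right this hh.le
    have c2 : ((j:ℝ) + 1) * h ≤ (q:ℝ) * h := by
      have : (j:ℝ) + 1 ≤ q := by exact_mod_cast h2
      exact mul_le_mul_of_nonneg_right this hh.le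
    have c3 : (j:ℝ) * h + h / 2 ∈ uIcc (F x) (F y) := by
      rw [uIcc_of_le (by linarith)]
      constructor <;> nlinarith
    obtain ⟨z, hz1, hz2⟩ := intermediate_value_uIcc hFc.continuousOn c3
    have hz3 : (i:ℝ) * h < z ∧ z < ((i:ℝ) + 1) * h := by
      rcases le_total x y with hxy | hxy
      · rw [uIcc_of_le hxy] at hz1
        exact ⟨by linarith [hz1.1], by linarith [hz1.2]⟩
      · rw [uIcc_of_ge hxy] at hz1
        exact ⟨by linarith [hz1.1], by linarith [hz1.2]⟩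
    exact ⟨hi, by omega, z, hz3.1, hz3.2, by rw [hz2]; linarith, by rw [hz2]; nlinarith⟩
  · intro x h1 h2
    constructor
    · by_contra hc
      push Not at hc
      obtain ⟨j, y, hj, hy, b1, b2⟩ := key (Iio ((p:ℝ) * h)) isOpen_Iio ⟨x, h1, h2, hc⟩
      have h3 : (p:ℝ) ≤ j := by exact_mod_cast hpmin j hj
      have h4 : (p:ℝ) * h ≤ j * h := mul_le_mul_of_nonneg_right h3 hh.le
      have h5 : y < (p:ℝ) * h := hy
      linarith
    · by_contra hc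
      push Not at hc
      obtain ⟨j, y, hj, hy, b1, b2⟩ := key (Ioi (((q:ℝ) + 1) * h)) isOpen_Ioi ⟨x, h1, h2, hc⟩
      have h3 : (j:ℝ) ≤ q := by exact_mod_cast hqmax j hj
      have h4 : ((j:ℝ) + 1) * h ≤ ((q:ℝ) + 1) * h := mul_le_mul_of_nonneg_right (by linarith) hh.le
      have h5 : ((q:ℝ) + 1) * h < y := hy
      linarith

end main

/-- Gluing finitely many continuous functions. -/
lemma glue (φ : ℕ → ℝ → ℝ) (hφ : ∀ i, Continuous (φ i)) (t : ℕ → ℝ) (ht : Monotone t) (n : ℕ)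
    (hm : ∀ i < n, φ i (t (i + 1)) = φ (i + 1) (t (i + 1))) :
    ∃ G : ℝ → ℝ, Continuous G ∧ (∀ i ≤ n, ∀ x, t i ≤ x → x ≤ t (i + 1) → G x = φ i x) ∧
      ∀ x, t n ≤ x → G x = φ n x := by
  induction n with
  | zero =>
    refine ⟨φ 0, hφ 0, fun i hi x _ _ => ?_, fun x _ => rfl⟩
    obtain rfl : i = 0 := by omega
    rfl
  | succ n ih =>
    obtain ⟨G, h1, h2, h3⟩ := ih fun i hi => hm i (by omega)
    refine ⟨fun x => if x ≤ t (n + 1) then G x else φ (n + 1) x, ?_, ?_, ?_⟩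
    · refine Continuous.if_le h1 (hφ _) continuous_id continuous_const ?_
      rintro x hx
      have hx' : x = t (n + 1) := hx
      rw [hx', h3 _ (ht (Nat.le_succ n)), hm n (by omega)]
    · intro i hi x hx1 hx2
      rcases Nat.lt_or_ge i (n + 1) with h4 | h4
      · have h5 : x ≤ t (n + 1) := hx2.trans (ht (by omega))
        simp only [if_pos h5]
        exact h2 i (by omega) x hx1 hx2
      · obtain rfl : i = n + 1 := by omega
        by_cases h5 : x ≤ t (n + 1)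
        · simp only [if_pos h5]
          have h6 : x = t (n + 1) := le_antisymm h5 hx1
          rw [h6, h3 _ (ht (Nat.le_succ n)), hm n (by omega)]
        · simp only [if_neg h5]
    · intro x hx
      by_cases h5 : x ≤ t (n + 1)
      · simp only [if_pos h5]
        have h6 : x = t (n + 1) := le_antisymm h5 hx
        rw [h6, h3 _ (ht (Nat.le_succ n)), hm n (by omega)]
      · simp only [if_neg h5]

end Pool.Agent.Q68.BP
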