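import Pool.Agent.Q68.BP.Mark
open Set Filter Topology
noncomputable section
namespace Pool.Agent.Q68.BP

/-- `G^[m]` maps `[a,b]` onto a set containing `[c,d]`. -/
def Cov (G : ℝ → ℝ) (m : ℕ) (a b c d : ℝ) : Prop :=
  ∀ w, c ≤ w → w ≤ d → ∃ t, a ≤ t ∧ t ≤ b ∧ G^[m] t = w

lemma Cov.comp {G : ℝ → ℝ} {m k : ℕ} {a b c d e f : ℝ} (h1 : Cov G m a b c d)
    (h2 : Cov G k c d e f) : Cov G (m + k) a b e f := by
  intro w hw1 hw2
  obtain ⟨t, ht1, ht2, ht3⟩ := h2 w hw1 hw2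
  obtain ⟨u, hu1, hu2, hu3⟩ := h1 t ht1 ht2
  refine ⟨u, hu1, hu2, ?_⟩
  rw [add_comm, Function.iterate_add_apply, hu3, ht3]

lemma Cov.mono {G : ℝ → ℝ} {m : ℕ} {a b c d a' b' c' d' : ℝ} (h1 : Cov G m a b c d)
    (h2 : a' ≤ a) (h3 : b ≤ b') (h4 : c ≤ c') (h5 : d' ≤ d) : Cov G m a' b' c' d' := by
  intro w hw1 hw2
  obtain ⟨t, ht1, ht2, ht3⟩ := h1 w (h4.trans hw1) (hw2.trans h5)
  exact ⟨t, h2.trans ht1, ht2.trans h3, ht3⟩

lemma Cov.fixed {G : ℝ → ℝ} (hG : Continuous G) {m : ℕ} {a b : ℝ} (hab : a ≤ b)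
    (h1 : Cov G m a b a b) : ∃ x, a ≤ x ∧ x ≤ b ∧ G^[m] x = x := by
  obtain ⟨u, hu1, hu2, hu3⟩ := h1 a le_rfl hab
  obtain ⟨v, hv1, hv2, hv3⟩ := h1 b hab le_rfl
  have hc : Continuous (fun x => G^[m] x - x) := (hG.iterate m).sub continuous_id
  have h0 : (0:ℝ) ∈ uIcc (G^[m] u - u) (G^[m] v - v) := by
    rw [hu3, hv3, mem_uIcc]
    left; exact ⟨by linarith, by linarith⟩
  obtain ⟨z, hz1, hz2⟩ := intermediate_value_uIcc (f := fun x => G^[m] x - x) hc.continuousOn h0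
  have hz3 : z ∈ Icc a b := by
    have : uIcc u v ⊆ Icc a b := by
      rw [← uIcc_of_le hab]
      exact uIcc_subset_uIcc (by rw [uIcc_of_le hab]; exact ⟨hu1, hu2⟩)
        (by rw [uIcc_of_le hab]; exact ⟨hv1, hv2⟩)
    exact this hz1
  exact ⟨z, hz3.1, hz3.2, by simpa [sub_eq_zero] using hz2⟩

/-- A subinterval in a single cell. -/
lemma sub_cell {h : ℝ} (hh : 0 < h) {M : ℕ} (hM : ((M:ℝ) + 1) * h = 1) {c d : ℝ} (h0 : 0 ≤ c)
    (hcd : c < d) (h1 : d ≤ 1) : ∃ i : ℕ, i ≤ M ∧ ∃ c' d', c ≤ c' ∧ c' < d' ∧ d' ≤ d ∧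
      (i:ℝ) * h ≤ c' ∧ d' ≤ ((i:ℝ) + 1) * h ∧ ((d - c) / 2 ≤ d' - c' ∨ h ≤ d' - c') := by
  obtain ⟨i, hi, h2, h3⟩ := locate hh hM h0 (lt_of_lt_of_le hcd h1)
  rcases le_or_gt d (((i:ℝ) + 1) * h) with h4 | h4
  · exact ⟨i, hi, c, d, le_rfl, hcd, le_rfl, h2, h4, Or.inl (by linarith)⟩
  have hi1 : i + 1 ≤ M := by
    have : ((i:ℝ) + 1) * h < ((M:ℝ) + 1) * h := by linarith
    have : (i:ℝ) + 1 < (M:ℝ) + 1 := lt_of_mul_lt_mul_right this hh.le
    have : i + 1 < M + 1 := by exact_mod_cast this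
    omega
  rcases le_or_gt d (((i:ℝ) + 1 + 1) * h) with h5 | h5
  · rcases le_total ((d - c) / 2) (((i:ℝ) + 1) * h - c) with h6 | h6
    · exact ⟨i, hi, c, ((i:ℝ) + 1) * h, le_rfl, h3, h4.le, h2, le_rfl, Or.inl h6⟩
    · refine ⟨i + 1, hi1, ((i:ℝ) + 1) * h, d, h3.le, h4, le_rfl, ?_, ?_, Or.inl (by linarith)⟩
      · push_cast; exact le_rfl
      · push_cast; exact h5
  · refine ⟨i + 1, hi1, ((i:ℝ) + 1) * h, ((i:ℝ) + 1 + 1) * h, h3.le, by nlinarith, h5.le, ?_, ?_,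
      Or.inr (by nlinarith)⟩
    · push_cast; exact le_rfl
    · push_cast; exact le_rfl

section growth

variable {R : ℕ → ℕ → Prop} {h : ℝ} (hh : 0 < h) {M : ℕ} (hM : ((M:ℝ) + 1) * h = 1)
  {G : ℝ → ℝ} (hGc : Continuous G) {P Q : ℕ → ℕ} (hPQ : ∀ i, i ≤ M → P i ≤ Q i ∧ Q i ≤ M)
  (hR : ∀ i, i ≤ M → ∀ j, P i ≤ j → j ≤ Q i → R i j)
  (hRM : ∀ i j, R i j → i ≤ M ∧ j ≤ M ∧ P i ≤ j ∧ j ≤ Q i)
  (hback : ∀ i j, R i j → Relation.ReflTransGen R j i)
  {v s : ℕ → ℝ} (hs : ∀ i, i ≤ M → 4 < s i * h) (hs8 : ∀ i, i ≤ M → 8 ≤ s i)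
  (hG : ∀ i, i ≤ M → ∀ x, (i:ℝ) * h ≤ x → x ≤ ((i:ℝ) + 1) * h →
    G x = Fo ((P i : ℝ) * h) (((Q i : ℝ) + 1) * h) (v i + s i * (x - (i:ℝ) * h)))

include hh hPQ in
lemma T_lt {i : ℕ} (hi : i ≤ M) : (P i : ℝ) * h < ((Q i : ℝ) + 1) * h := by
  have h1 : (P i : ℝ) ≤ Q i := by exact_mod_cast (hPQ i hi).1
  nlinarith

include hh hM hPQ in
lemma T_le {i : ℕ} (hi : i ≤ M) : 0 ≤ (P i : ℝ) * h ∧ ((Q i : ℝ) + 1) * h ≤ 1 :=
  ⟨by positivity, cell_le_one hh hM (hPQ i hi).2⟩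

include hh hM hPQ hs hG in
/-- A long piece of a cell covers the whole range. -/
lemma cov_long {i : ℕ} (hi : i ≤ M) {a b : ℝ} (ha : (i:ℝ) * h ≤ a) (hb : b ≤ ((i:ℝ) + 1) * h)
    (hab : h / 2 ≤ b - a) : Cov G 1 a b ((P i : ℝ) * h) (((Q i : ℝ) + 1) * h) := by
  have hT := T_lt hh hPQ hi
  have hs0 : 0 < s i := by
    have := hs i hi
    by_contra hc
    push Not at hc
    nlinarith
  rcases Fo_dich (v := v i) (x₀ := (i:ℝ) * h) hT hs0 (show a < b by linarith) with h1 | h1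
  · intro w h2 h3
    obtain ⟨t, t1, t2, t3⟩ := h1 w h2 h3
    refine ⟨t, t1, t2, ?_⟩
    rw [Function.iterate_one, hG i hi t (by linarith) (by linarith), t3]
  · exfalso
    obtain ⟨c, d, h2, h3, h4, h5, h6⟩ := h1
    obtain ⟨m1, m2⟩ := Fo_mem hT (v i + s i * (c - (i:ℝ) * h))
    obtain ⟨m3, m4⟩ := Fo_mem hT (v i + s i * (d - (i:ℝ) * h))
    obtain ⟨m5, m6⟩ := T_le hh hM hPQ hi
    have h7 : |Fo ((P i : ℝ) * h) (((Q i : ℝ) + 1) * h) (v i + s i * (c - (i:ℝ) * h)) -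
        Fo ((P i : ℝ) * h) (((Q i : ℝ) + 1) * h) (v i + s i * (d - (i:ℝ) * h))| ≤ 1 := by
      rw [abs_le]; constructor <;> linarith
    rw [h6] at h7
    have h8 : h / 4 ≤ d - c := by linarith
    have h9 := hs i hi
    have h10 : s i * (h / 4) ≤ s i * (d - c) := mul_le_mul_of_nonneg_left h8 hs0.le
    nlinarith

include hh hM hPQ hR hs hs8 hGc hG in
/-- Growth of small intervals. -/
lemma growth (k : ℕ) : ∀ i, i ≤ M → ∀ a b, (i:ℝ) * h ≤ a → b ≤ ((i:ℝ) + 1) * h →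
    (h / 2) / 2 ^ k ≤ b - a → ∃ j m, 0 < m ∧ j ≤ M ∧ Relation.ReflTransGen R i j ∧
      Cov G m a b ((P j : ℝ) * h) (((Q j : ℝ) + 1) * h) := by
  induction k with
  | zero =>
    intro i hi a b ha hb hab
    exact ⟨i, 1, one_pos, hi, Relation.ReflTransGen.refl,
      cov_long hh hM hPQ hs hG hi ha hb (by simpa using hab)⟩
  | succ k ih =>
    intro i hi a b ha hb hab
    have hT := T_lt hh hPQ hi
    have hs0 : 0 < s i := by linarith [hs8 i hi]
    have hab' : a < b := by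
      have : 0 < (h / 2) / 2 ^ (k + 1) := by positivity
      linarith
    rcases Fo_dich (v := v i) (x₀ := (i:ℝ) * h) hT hs0 hab' with h1 | h1
    · refine ⟨i, 1, one_pos, hi, Relation.ReflTransGen.refl, ?_⟩
      intro w h2 h3
      obtain ⟨t, t1, t2, t3⟩ := h1 w h2 h3
      refine ⟨t, t1, t2, ?_⟩
      rw [Function.iterate_one, hG i hi t (by linarith) (by linarith), t3]
    · obtain ⟨c, d, h2, h3, h4, h5, h6⟩ := h1
      rw [← hG i hi c (by linarith) (by linarith), ← hG i hi d (by linarith) (by linarith)] at h6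
      obtain ⟨m1, m2⟩ := Fo_mem hT (v i + s i * (c - (i:ℝ) * h))
      obtain ⟨m3, m4⟩ := Fo_mem hT (v i + s i * (d - (i:ℝ) * h))
      rw [← hG i hi c (by linarith) (by linarith)] at m1 m2
      rw [← hG i hi d (by linarith) (by linarith)] at m3 m4
      obtain ⟨m5, m6⟩ := T_le hh hM hPQ hi
      -- the image interval
      obtain ⟨c1, d1, e1, e2, e3, e4, e5⟩ : ∃ c1 d1, c1 < d1 ∧ (P i : ℝ) * h ≤ c1 ∧
          d1 ≤ ((Q i : ℝ) + 1) * h ∧ d1 - c1 = s i * (d - c) ∧ Cov G 1 a b c1 d1 := by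
        have hpos : 0 < s i * (d - c) := mul_pos hs0 (by linarith)
        have hcov : ∀ w, w ∈ uIcc (G c) (G d) → ∃ t, a ≤ t ∧ t ≤ b ∧ G^[1] t = w := by
          intro w hw
          obtain ⟨z, hz1, hz2⟩ := intermediate_value_uIcc hGc.continuousOn hw
          rw [uIcc_of_le h3.le] at hz1
          exact ⟨z, h2.trans hz1.1, hz1.2.trans h4, by rw [Function.iterate_one, hz2]⟩
        rcases le_total (G c) (G d) with h7 | h7
        · rw [abs_of_nonpos (by linarith)] at h6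
          refine ⟨G c, G d, by linarith, m1, m4, by linarith, ?_⟩
          intro w w1 w2
          exact hcov w (by rw [uIcc_of_le h7]; exact ⟨w1, w2⟩)
        · rw [abs_of_nonneg (by linarith)] at h6
          refine ⟨G d, G c, by linarith, m3, m2, by linarith, ?_⟩
          intro w w1 w2
          exact hcov w (by rw [uIcc_of_ge h7]; exact ⟨w1, w2⟩)
      obtain ⟨j, hj, c', d', f1, f2, f3, f4, f5, f6⟩ := sub_cell hh hM (m5.trans e2) e1
        (e3.trans m6)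
      have hPj : P i ≤ j := by
        have : (P i : ℝ) * h < ((j:ℝ) + 1) * h := by linarith
        have : (P i : ℝ) < (j:ℝ) + 1 := lt_of_mul_lt_mul_right this hh.le
        have : P i < j + 1 := by exact_mod_cast this
        omega
      have hjQ : j ≤ Q i := by
        have : (j : ℝ) * h < ((Q i:ℝ) + 1) * h := by linarith
        have : (j : ℝ) < (Q i:ℝ) + 1 := lt_of_mul_lt_mul_right this hh.le
        have : j < Q i + 1 := by exact_mod_cast this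
        omega
      have hlen : (h / 2) / 2 ^ k ≤ d' - c' := by
        rcases f6 with f6 | f6
        · have g1 : (h / 2) / 2 ^ (k + 1) ≤ b - a := hab
          have g2 : (h / 2) / 2 ^ k = 2 * ((h / 2) / 2 ^ (k + 1)) := by
            rw [pow_succ]; field_simp
          have g3 : 8 * (d - c) ≤ s i * (d - c) :=
            mul_le_mul_of_nonneg_right (hs8 i hi) (by linarith)
          rw [g2]
          linarith
        · have g1 : (h / 2) / 2 ^ k ≤ h / 2 :=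
            div_le_self (by positivity) (one_le_pow₀ (by norm_num))
          linarith
      obtain ⟨j', m, k1, k2, k3, k4⟩ := ih j hj c' d' f4 f5 hlen
      refine ⟨j', 1 + m, by omega, k2, Relation.ReflTransGen.head (hR i hi j hPj hjQ) k3, ?_⟩
      exact (e5.mono le_rfl le_rfl f1 f3).comp k4

include hh hM hPQ hRM hs hG in
/-- Paths produce coverings. -/
lemma cov_path {i j : ℕ} (hp : Relation.ReflTransGen R i j) :
    ∃ m, Cov G m ((i:ℝ) * h) (((i:ℝ) + 1) * h) ((j:ℝ) * h) (((j:ℝ) + 1) * h) := by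
  induction hp with
  | refl => exact ⟨0, fun w h1 h2 => ⟨w, h1, h2, rfl⟩⟩
  | @tail b c _ h2 ih =>
    obtain ⟨m, hm⟩ := ih
    obtain ⟨h3, h4, h5, h6⟩ := hRM b c h2
    refine ⟨m + 1, hm.comp ?_⟩
    refine (cov_long hh hM hPQ hs hG h3 le_rfl le_rfl (by nlinarith)).mono le_rfl le_rfl ?_ ?_
    · exact mul_le_mul_of_nonneg_right (by exact_mod_cast h5) hh.le
    · exact mul_le_mul_of_nonneg_right (by
        have : (c:ℝ) ≤ Q b := by exact_mod_cast h6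
        linarith) hh.le

include hh hM hPQ hR hRM hback hs hs8 hGc hG in
/-- The folded map has dense periodic points. -/
lemma PD_G : PD G := by
  intro a b ha hab hb
  obtain ⟨i, hi, c, d, h1, h2, h3, h4, h5, -⟩ := sub_cell hh hM (c := (2 * a + b) / 3)
    (d := (a + 2 * b) / 3) (by linarith) (by linarith) (by linarith)
  obtain ⟨k, hk⟩ : ∃ k : ℕ, (h / 2) / 2 ^ k ≤ d - c := by
    obtain ⟨k, hk⟩ := pow_unbounded_of_one_lt ((h / 2) / (d - c)) (show (1:ℝ) < 2 by norm_num)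
    refine ⟨k, ?_⟩
    have hdc : 0 < d - c := by linarith
    rw [div_lt_iff₀ hdc] at hk
    rw [div_le_iff₀ (by positivity)]
    linarith
  obtain ⟨j, m, hm, hj, h6, h7⟩ := growth hh hM hGc hPQ hR hs hs8 hG k i hi c d h4 h5 hk
  -- continue into a cell and return
  have hj' : P j ≤ M := (hPQ j hj).1.trans (hPQ j hj).2
  have h8 : R j (P j) := hR j hj (P j) le_rfl (hPQ j hj).1
  have h9 : Relation.ReflTransGen R (P j) i := by
    have h10 : Relation.ReflTransGen R i (P j) := h6.tail h8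
    have gen : ∀ z, Relation.ReflTransGen R i z → Relation.ReflTransGen R z i := by
      intro z hz
      induction hz with
      | refl => exact Relation.ReflTransGen.refl
      | tail _ h2 ih => exact (hback _ _ h2).trans ih
    exact gen _ h10
  obtain ⟨m', hm'⟩ := cov_path hh hM hPQ hRM hs hG h9
  have h11 : Cov G m c d ((P j:ℝ) * h) (((P j:ℝ) + 1) * h) :=
    h7.mono le_rfl le_rfl le_rfl (mul_le_mul_of_nonneg_right (by
      have : (P j:ℝ) ≤ Q j := by exact_mod_cast (hPQ j hj).1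
      linarith) hh.le)
  have h12 := (h11.comp hm').mono le_rfl le_rfl h4 h5
  obtain ⟨x, x1, x2, x3⟩ := h12.fixed hGc h2.le
  exact ⟨x, by linarith, by linarith, m + m', by omega, x3⟩

end growth

/-- `G` is steep to the right of every point of `[0,1)`. -/
def Steep (S : ℝ) (G : ℝ → ℝ) : Prop :=
  ∀ x, 0 ≤ x → x < 1 → ∃ l, 0 < l ∧ x + l ≤ 1 ∧
    ((∀ y z, x ≤ z → z ≤ y → y ≤ x + l → S * (y - z) ≤ G y - G z) ∨
     (∀ y z, x ≤ z → z ≤ y → y ≤ x + l → G y - G z ≤ -(S * (y - z))))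

/-- **Density of the steep maps with dense periodic points.** -/
theorem steep_dense {F : ℝ → ℝ} (hFc : Continuous F) (hFU : UU F) (hFP : PD F) {ε : ℝ}
    (hε : 0 < ε) {S : ℝ} (hS : 0 ≤ S) : ∃ G : ℝ → ℝ, Continuous G ∧ UU G ∧ PD G ∧ Steep S G ∧
      ∀ x, 0 ≤ x → x ≤ 1 → |G x - F x| ≤ ε := by
  classical
  -- the mesh
  obtain ⟨δ, hδ, hunif⟩ : ∃ δ > 0, ∀ x, 0 ≤ x → x ≤ 1 → ∀ y, 0 ≤ y → y ≤ 1 → |x - y| < δ →
      |F x - F y| < ε / 2 := by
    have huc := (isCompact_Icc (a := (0:ℝ)) (b := 1)).uniformContinuousOn_of_continuous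
      hFc.continuousOn
    rw [Metric.uniformContinuousOn_iff] at huc
    obtain ⟨δ, h1, h2⟩ := huc (ε / 2) (by linarith)
    exact ⟨δ, h1, fun x x0 x1 y y0 y1 hxy => h2 x ⟨x0, x1⟩ y ⟨y0, y1⟩ hxy⟩
  obtain ⟨M, hM0⟩ := exists_nat_gt (max (2 / δ) (4 / ε))
  obtain ⟨h, hh'⟩ : ∃ h : ℝ, h = 1 / ((M:ℝ) + 1) := ⟨_, rfl⟩
  have hMp : (0:ℝ) < (M:ℝ) + 1 := by positivity
  have hh : 0 < h := by rw [hh']; positivity
  have hM : ((M:ℝ) + 1) * h = 1 := by rw [hh']; field_simp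
  have hhδ : 2 * h < δ := by
    have h1 : 2 / δ < (M:ℝ) + 1 := by
      have := lt_of_le_of_lt (le_max_left _ _) hM0
      linarith
    rw [div_lt_iff₀ hδ] at h1
    have : 2 * h < (((M:ℝ) + 1) * δ) * h := mul_lt_mul_of_pos_right h1 hh
    nlinarith
  have hhε : 4 * h < ε := by
    have h1 : 4 / ε < (M:ℝ) + 1 := by
      have := lt_of_le_of_lt (le_max_right _ _) hM0
      linarith
    rw [div_lt_iff₀ hε] at h1
    have : 4 * h < (((M:ℝ) + 1) * ε) * h := mul_lt_mul_of_pos_right h1 hh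
    nlinarith
  -- the ranges
  have hrange : ∀ i, i ≤ M → ∃ p q : ℕ, p ≤ q ∧ q ≤ M ∧
      (∀ j, p ≤ j → j ≤ q → E F h M i j) ∧
      (∀ x, (i:ℝ) * h ≤ x → x ≤ ((i:ℝ) + 1) * h → (p:ℝ) * h ≤ F x ∧ F x ≤ ((q:ℝ) + 1) * h) :=
    fun i hi => range_cell hFc hFU hFP hh hM hi
  choose! P Q hPQ1 hPQ2 hPQ3 hPQ4 using hrange
  have hPQ : ∀ i, i ≤ M → P i ≤ Q i ∧ Q i ≤ M := fun i hi => ⟨hPQ1 i hi, hPQ2 i hi⟩
  -- the sizes of the ranges
  have hsize : ∀ i, i ≤ M → ((Q i:ℝ) + 1) * h - (P i:ℝ) * h ≤ ε := by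
    intro i hi
    obtain ⟨-, -, x, x1, x2, x3, x4⟩ := hPQ3 i hi (P i) le_rfl (hPQ1 i hi)
    obtain ⟨-, -, y, y1, y2, y3, y4⟩ := hPQ3 i hi (Q i) (hPQ1 i hi) le_rfl
    have h1 := cell_le_one hh hM hi
    have h0 : 0 ≤ (i:ℝ) * h := by positivity
    have h2 := hunif y (by linarith) (by linarith) x (by linarith) (by linarith) (by
      rw [abs_lt]; constructor <;> nlinarith)
    rw [abs_lt] at h2
    nlinarith [h2.2]
  -- restricted relation
  have hRM : ∀ i j, E F h M i j → i ≤ M ∧ j ≤ M ∧ P i ≤ j ∧ j ≤ Q i := by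
    rintro i j ⟨hi, hj, x, x1, x2, x3, x4⟩
    obtain ⟨a1, a2⟩ := hPQ4 i hi x x1.le x2.le
    refine ⟨hi, hj, ?_, ?_⟩
    · have : (P i : ℝ) * h < ((j:ℝ) + 1) * h := by linarith
      have : (P i : ℝ) < (j:ℝ) + 1 := lt_of_mul_lt_mul_right this hh.le
      have : P i < j + 1 := by exact_mod_cast this
      omega
    · have : (j : ℝ) * h < ((Q i:ℝ) + 1) * h := by linarith
      have : (j : ℝ) < (Q i:ℝ) + 1 := lt_of_mul_lt_mul_right this hh.le
      have : j < Q i + 1 := by exact_mod_cast this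
      omega
  -- the speeds
  obtain ⟨K, hK⟩ := exists_nat_gt (S + 8 + 5 / h)
  obtain ⟨s, hsdef⟩ : ∃ s : ℕ → ℝ, ∀ i, s i = (F (((i:ℝ) + 1) * h) - F ((i:ℝ) * h) +
      2 * (((Q i:ℝ) + 1) * h - (P i:ℝ) * h) * K) / h := ⟨_, fun i => rfl⟩
  have hsbig : ∀ i, i ≤ M → S + 8 + 4 / h ≤ s i := by
    intro i hi
    have h1 := cell_le_one hh hM hi
    have h0 : 0 ≤ (i:ℝ) * h := by positivity
    have h2 : (0:ℝ) ≤ ((i:ℝ) + 1) * h := by positivity
    have h3 := hFU _ h0 (by nlinarith)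
    have h4 := hFU _ h2 h1
    have h5 : h ≤ ((Q i:ℝ) + 1) * h - (P i:ℝ) * h := by
      have : (P i:ℝ) ≤ Q i := by exact_mod_cast hPQ1 i hi
      nlinarith
    have hK0 : (0:ℝ) ≤ K := by positivity
    have h6 : 2 * h * K ≤ 2 * (((Q i:ℝ) + 1) * h - (P i:ℝ) * h) * K :=
      mul_le_mul_of_nonneg_right (by linarith) hK0
    rw [hsdef, le_div_iff₀ hh]
    have h7 : (S + 8 + 4 / h) * h = (S + 8) * h + 4 := by field_simp
    have h8 : (S + 8 + 5 / h) * h = (S + 8) * h + 5 := by field_simp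
    have h9 : (S + 8 + 5 / h) * h < K * h := mul_lt_mul_of_pos_right hK hh
    rw [h8] at h9
    rw [h7]
    have h10 : 0 ≤ (S + 8) * h := by positivity
    nlinarith [h3.1, h3.2, h4.1, h4.2]
  have hs : ∀ i, i ≤ M → 4 < s i * h := by
    intro i hi
    have h1 := mul_le_mul_of_nonneg_right (hsbig i hi) hh.le
    have h7 : (S + 8 + 4 / h) * h = (S + 8) * h + 4 := by field_simp
    have h10 : 0 < (S + 8) * h := by positivity
    rw [h7] at h1
    linarith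
  have h4h : 0 < 4 / h := by positivity
  have hs8 : ∀ i, i ≤ M → 8 ≤ s i := fun i hi => by linarith [hsbig i hi]
  have hsS : ∀ i, i ≤ M → S ≤ s i := fun i hi => by linarith [hsbig i hi]
  -- the map
  obtain ⟨G, hGc, hG1, -⟩ := glue (fun i x => Fo ((P i : ℝ) * h) (((Q i : ℝ) + 1) * h)
      (F ((i:ℝ) * h) + s i * (x - (i:ℝ) * h)))
    (fun i => (Fo_cont _ _).comp (by fun_prop)) (fun i => (i:ℝ) * h)
    (fun i j hij => mul_le_mul_of_nonneg_right (by exact_mod_cast hij) hh.le) M (by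
      intro i hi
      have hi' : i ≤ M := hi.le
      have hi1 : i + 1 ≤ M := hi
      have hT := T_lt hh hPQ hi'
      have hT1 := T_lt hh hPQ hi1
      have e1 : F ((i:ℝ) * h) + s i * ((((i + 1 : ℕ)):ℝ) * h - (i:ℝ) * h)
          = F (((i:ℝ) + 1) * h) + 2 * (((Q i:ℝ) + 1) * h - (P i:ℝ) * h) * K := by
        rw [hsdef]; push_cast; field_simp; ring
      have a1 := hPQ4 i hi' (((i:ℝ) + 1) * h) (by nlinarith) le_rfl
      have a2 := hPQ4 (i + 1) hi1 (((i:ℝ) + 1) * h) (by push_cast; exact le_rfl)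
        (by push_cast; nlinarith)
      show Fo ((P i : ℝ) * h) (((Q i : ℝ) + 1) * h)
          (F ((i:ℝ) * h) + s i * ((((i + 1 : ℕ)):ℝ) * h - (i:ℝ) * h)) =
        Fo ((P (i + 1) : ℝ) * h) (((Q (i + 1) : ℝ) + 1) * h)
          (F ((((i + 1 : ℕ)):ℝ) * h) + s (i + 1) * ((((i + 1 : ℕ)):ℝ) * h - (((i + 1 : ℕ)):ℝ) * h))
      rw [e1, Fo_per hT, Fo_id hT a1.1 a1.2, sub_self, mul_zero, add_zero]
      push_cast
      rw [Fo_id hT1 a2.1 a2.2])
  have hG : ∀ i, i ≤ M → ∀ x, (i:ℝ) * h ≤ x → x ≤ ((i:ℝ) + 1) * h →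
      G x = Fo ((P i : ℝ) * h) (((Q i : ℝ) + 1) * h)
        (F ((i:ℝ) * h) + s i * (x - (i:ℝ) * h)) := by
    intro i hi x hx1 hx2
    exact hG1 i hi x hx1 (by push_cast; exact hx2)
  have hclosed : ∀ x, 0 ≤ x → x ≤ 1 → ∃ i : ℕ, i ≤ M ∧ (i:ℝ) * h ≤ x ∧ x ≤ ((i:ℝ) + 1) * h := by
    intro x hx0 hx1
    rcases eq_or_lt_of_le hx1 with rfl | hx1
    · exact ⟨M, le_rfl, by nlinarith, by linarith⟩
    · obtain ⟨i, h1, h2, h3⟩ := locate hh hM hx0 hx1
      exact ⟨i, h1, h2, h3.le⟩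
  refine ⟨G, hGc, ?_, ?_, ?_, ?_⟩
  · intro x hx0 hx1
    obtain ⟨i, hi, h2, h3⟩ := hclosed x hx0 hx1
    obtain ⟨m1, m2⟩ := Fo_mem (T_lt hh hPQ hi) (F ((i:ℝ) * h) + s i * (x - (i:ℝ) * h))
    obtain ⟨m3, m4⟩ := T_le hh hM hPQ hi
    rw [hG i hi x h2 h3]
    exact ⟨by linarith, by linarith⟩
  · exact PD_G hh hM hGc hPQ hPQ3 hRM (fun i j hE => E_back hFc hFU hFP hh hM hE)
      hs hs8 hG
  · intro x hx0 hx1
    obtain ⟨i, hi, h2, h3⟩ := locate hh hM hx0 hx1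
    have hs0 : 0 < s i := by linarith [hs8 i hi]
    obtain ⟨l, hl, hor⟩ := Fo_right (v := F ((i:ℝ) * h)) (x₀ := (i:ℝ) * h) (T_lt hh hPQ hi) hs0 x
    have h1 := cell_le_one hh hM hi
    refine ⟨min l (((i:ℝ) + 1) * h - x), lt_min hl (by linarith), ?_, ?_⟩
    · have := min_le_right l (((i:ℝ) + 1) * h - x)
      linarith
    have b1 := min_le_left l (((i:ℝ) + 1) * h - x)
    have b2 := min_le_right l (((i:ℝ) + 1) * h - x)
    rcases hor with hor | hor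
    · left
      intro y z y1 y2 y3
      rw [hG i hi y (by linarith) (by linarith), hG i hi z (by linarith) (by linarith),
        hor y z y1 y2 (by linarith)]
      exact mul_le_mul_of_nonneg_right (hsS i hi) (by linarith)
    · right
      intro y z y1 y2 y3
      rw [hG i hi y (by linarith) (by linarith), hG i hi z (by linarith) (by linarith),
        hor y z y1 y2 (by linarith)]
      have := mul_le_mul_of_nonneg_right (hsS i hi) (show 0 ≤ y - z by linarith)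
      linarith
  · intro x hx0 hx1
    obtain ⟨i, hi, h2, h3⟩ := hclosed x hx0 hx1
    obtain ⟨m1, m2⟩ := Fo_mem (T_lt hh hPQ hi) (F ((i:ℝ) * h) + s i * (x - (i:ℝ) * h))
    obtain ⟨m3, m4⟩ := hPQ4 i hi x h2 h3
    have h5 := hsize i hi
    rw [hG i hi x h2 h3, abs_le]
    constructor <;> linarith

end Pool.Agent.Q68.BP
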