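import Pool.Agent.Q68.BP.Cat
import Pool.Agent.Q68.BP.Steep
open Set Filter Topology unitInterval
noncomputable section
namespace Pool.Agent.Q68.BP

/-- The maps of the unit interval with a dense set of periodic points. -/
abbrev CPt : Type := {f : C(I, I) // Dense (Function.periodicPts f)}

/-- The extension of a map of the unit interval to the line. -/
def ex (f : C(I, I)) (x : ℝ) : ℝ := f (projIcc 0 1 zero_le_one x)

lemma ex_cont (f : C(I, I)) : Continuous (ex f) := by
  unfold ex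
  exact continuous_subtype_val.comp (f.continuous.comp continuous_projIcc)

lemma ex_UU (f : C(I, I)) : UU (ex f) := fun x _ _ => ⟨(f _).2.1, (f _).2.2⟩

lemma ex_coe (f : C(I, I)) (x : I) : ex f x = f x := by
  unfold ex
  rw [projIcc_val]

lemma ex_iter (f : C(I, I)) (n : ℕ) (x : I) : (ex f)^[n] x = (f^[n] x : I) := by
  induction n with
  | zero => rfl
  | succ n ih => rw [Function.iterate_succ_apply', Function.iterate_succ_apply', ih, ex_coe]

lemma ex_PD (f : CPt) : PD (ex f.1) := by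
  intro a b ha hab hb
  have hm : (⟨(a + b) / 2, by constructor <;> linarith⟩ : I) ∈
      {x : I | a < x ∧ (x:ℝ) < b} := ⟨by show a < (a + b) / 2; linarith,
        by show (a + b) / 2 < b; linarith⟩
  have ho : IsOpen {x : I | a < x ∧ (x:ℝ) < b} :=
    (isOpen_lt continuous_const continuous_subtype_val).inter
      (isOpen_lt continuous_subtype_val continuous_const)
  obtain ⟨x, hx, hxp⟩ := f.2.inter_open_nonempty _ ho ⟨_, hm⟩
  obtain ⟨n, hn, hx3⟩ := hxp
  refine ⟨x, hx.1, hx.2, n, hn, ?_⟩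
  rw [ex_iter]
  exact congrArg Subtype.val hx3

/-- A map of the line which preserves the unit interval gives a map of the unit interval. -/
def mk (G : ℝ → ℝ) (hG : Continuous G) (hU : UU G) : C(I, I) :=
  ⟨fun x => ⟨G x, hU x x.2.1 x.2.2⟩, (hG.comp continuous_subtype_val).subtype_mk _⟩

lemma mk_iter (G : ℝ → ℝ) (hG : Continuous G) (hU : UU G) (n : ℕ) (x : I) :
    (((mk G hG hU)^[n] x : I) : ℝ) = G^[n] x := by
  induction n with
  | zero => rfl
  | succ n ih =>
    rw [Function.iterate_succ_apply', Function.iterate_succ_apply', ← ih]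
    rfl

lemma mk_dense (G : ℝ → ℝ) (hG : Continuous G) (hU : UU G) (hP : PD G) :
    Dense (Function.periodicPts (mk G hG hU)) := by
  rw [Metric.dense_iff]
  intro x r hr
  -- an interval in the ball
  obtain ⟨a, b, ha, hab, hb, hxa, hxb⟩ : ∃ a b : ℝ, 0 ≤ a ∧ a < b ∧ b ≤ 1 ∧ (x:ℝ) - r ≤ a ∧
      b ≤ (x:ℝ) + r := by
    rcases eq_or_lt_of_le x.2.2 with h1 | h1
    · refine ⟨max 0 (1 - r), 1, le_max_left _ _, max_lt (by norm_num) (by linarith), le_rfl,
        by rw [h1]; exact le_max_right _ _, by rw [h1]; linarith⟩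
    · exact ⟨x, min 1 (x + r), x.2.1, lt_min h1 (by linarith), min_le_left _ _, by linarith,
        min_le_right _ _⟩
  obtain ⟨y, hy1, hy2, n, hn, hy3⟩ := hP a b ha hab hb
  refine ⟨⟨y, by linarith, by linarith⟩, ?_, n, hn, ?_⟩
  · rw [Metric.mem_ball, Subtype.dist_eq, Real.dist_eq]
    show |y - x| < r
    rw [abs_lt]; constructor <;> linarith
  · apply Subtype.ext
    rw [mk_iter]
    exact hy3

/-- Steep maps are dense. -/
lemma steep_in (f : CPt) {ε : ℝ} (hε : 0 < ε) {S : ℝ} (hS : 0 ≤ S) :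
    ∃ g : CPt, dist g f < ε ∧ ∃ G : ℝ → ℝ, Continuous G ∧ Steep S G ∧ ∀ x : I, (g.1 x : ℝ) = G x := by
  obtain ⟨G, h1, h2, h3, h4, h5⟩ := steep_dense (ex_cont f.1) (ex_UU f.1) (ex_PD f)
    (half_pos hε) hS
  refine ⟨⟨mk G h1 h2, mk_dense G h1 h2 h3⟩, ?_, G, h1, h4, fun x => rfl⟩
  rw [Subtype.dist_eq]
  refine lt_of_le_of_lt ((ContinuousMap.dist_le (half_pos hε).le).2 fun x => ?_) (half_lt_self hε)
  rw [Subtype.dist_eq, Real.dist_eq]
  have := h5 x x.2.1 x.2.2
  rw [ex_coe] at this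
  exact this

/-- The states of the strategy. -/
structure St where
  U : Set CPt
  x : ℝ
  η : ℝ
  ρ : ℝ
  L : ℝ
  m : ℝ
  hU : IsOpen U
  hx : 0 ≤ x
  hρ : 0 < ρ
  hη : ρ < η
  hL : x + η + ρ ≤ L
  hL1 : L ≤ 1
  inv : ∀ f ∈ U, ∀ z, x ≤ z → z ≤ x + η → ∀ y, z + ρ ≤ y → y ≤ L →
    m * (y - z) ≤ ex f.1 y - ex f.1 z

/-- The extension relation. -/
def St.ext (s t : St) : Prop :=
  t.U ⊆ s.U ∧ s.x ≤ t.x ∧ t.x + t.η ≤ s.x + s.η ∧ t.ρ ≤ s.ρ / 2 ∧ t.m = s.m + 1 ∧
    ∀ f ∈ t.U, ∀ z, t.x ≤ z → z ≤ t.x + t.η → ∀ y, z + t.ρ ≤ y → y ≤ s.L →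
      (s.m - 1) * (y - z) ≤ ex f.1 y - ex f.1 z

/-- The first state. -/
def st0 : St where
  U := univ
  x := 0
  η := 3 / 8
  ρ := 1 / 4
  L := 1
  m := -4
  hU := isOpen_univ
  hx := le_rfl
  hρ := by norm_num
  hη := by norm_num
  hL := by norm_num
  hL1 := le_rfl
  inv := by
    intro f _ z _ _ y h1 _
    have h2 := (f.1 (projIcc 0 1 zero_le_one y)).2
    have h3 := (f.1 (projIcc 0 1 zero_le_one z)).2
    unfold ex
    have h4 := h2.1
    have h5 := h3.2
    linarith

/-- **The step of the strategy.** -/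
lemma step (s : St) (V : Set CPt) (hV : IsOpen V) (hVn : V.Nonempty) (hVs : V ⊆ s.U) :
    ∃ t : St, s.ext t ∧ t.U ⊆ V ∧ t.U.Nonempty := by
  obtain ⟨f0, hf0⟩ := hVn
  obtain ⟨r0, hr0, hball0⟩ := Metric.isOpen_iff.1 hV f0 hf0
  obtain ⟨S, hS⟩ : ∃ S : ℝ, S = |s.m| + 2 := ⟨_, rfl⟩
  have hS0 : 0 ≤ S := by rw [hS]; positivity
  have hSm : s.m + 2 ≤ S := by rw [hS]; linarith [le_abs_self s.m]
  have hSm' : -s.m < S := by rw [hS]; linarith [neg_abs_le s.m]
  obtain ⟨g, hg1, G, hGc, hGS, hGg⟩ := steep_in f0 hr0 hS0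
  have hgV : g ∈ V := hball0 hg1
  have hgex : ∀ y, 0 ≤ y → y ≤ 1 → ex g.1 y = G y := by
    intro y h0 h1
    have := ex_coe g.1 ⟨y, h0, h1⟩
    rw [hGg] at this
    exact this
  have hx := s.hx
  have hρ := s.hρ
  have hη := s.hη
  have hL := s.hL
  have hL1 := s.hL1
  -- the minimum point
  obtain ⟨z, hz1, hzmin⟩ : ∃ z, (s.x ≤ z ∧ z ≤ s.x + s.ρ) ∧
      ∀ y, z ≤ y → y ≤ s.L → s.m * (y - z) ≤ G y - G z := by
    have hcont : ContinuousOn (fun y => G y - s.m * y) (Icc s.x (s.x + s.ρ)) :=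
      (hGc.sub (continuous_const.mul continuous_id)).continuousOn
    obtain ⟨z, hz1, hz2⟩ := isCompact_Icc.exists_isMinOn (nonempty_Icc.2 (by linarith)) hcont
    have hz2' : ∀ y, s.x ≤ y → y ≤ s.x + s.ρ → G z - s.m * z ≤ G y - s.m * y :=
      fun y h1 h2 => hz2 (show y ∈ Icc s.x (s.x + s.ρ) from ⟨h1, h2⟩)
    refine ⟨z, hz1, fun y h1 h2 => ?_⟩
    rcases le_total y (s.x + s.ρ) with h3 | h3
    · have := hz2' y (hz1.1.trans h1) h3
      linarith
    · have h4 := hz2' s.x le_rfl (by linarith)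
      have h5 := s.inv g (hVs hgV) s.x le_rfl (by linarith) y h3 h2
      rw [hgex y (by linarith [hz1.1]) (by linarith), hgex s.x hx (by linarith)] at h5
      linarith
  -- the lap to the right
  obtain ⟨l, hl, hzl, hor⟩ := hGS z (by linarith [hz1.1]) (by linarith [hz1.2])
  obtain ⟨lam, hlam⟩ : ∃ lam, lam = min l (s.L - s.x - s.ρ) := ⟨_, rfl⟩
  have hlam0 : 0 < lam := by rw [hlam]; exact lt_min hl (by linarith)
  have hlaml : lam ≤ l := by rw [hlam]; exact min_le_left _ _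
  have hlamL : lam ≤ s.L - s.x - s.ρ := by rw [hlam]; exact min_le_right _ _
  have hlap : ∀ y w, z ≤ w → w ≤ y → y ≤ z + lam → S * (y - w) ≤ G y - G w := by
    rcases hor with hor | hor
    · intro y w h1 h2 h3
      exact hor y w h1 h2 (by linarith)
    · exfalso
      have h1 := hor (z + lam) z le_rfl (by linarith) (by linarith)
      have h2 := hzmin (z + lam) (by linarith) (by linarith [hz1.2])
      have h3 : z + lam - z = lam := by ring
      rw [h3] at h1 h2
      nlinarith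
  -- the parameters
  obtain ⟨δ, hδ, hGδ⟩ : ∃ δ > 0, ∀ w, z ≤ w → w ≤ z + δ → |G w - G z| ≤ lam / 4 := by
    have := Metric.continuous_iff.1 hGc z (lam / 4) (by linarith)
    obtain ⟨δ, h1, h2⟩ := this
    refine ⟨δ / 2, by linarith, fun w h3 h4 => ?_⟩
    have := h2 w (by rw [Real.dist_eq, abs_lt]; constructor <;> linarith)
    rw [Real.dist_eq] at this
    exact this.le
  have hm1 : 0 < |s.m| + 1 := by positivity
  obtain ⟨e, he⟩ : ∃ e, e = min (min δ (s.η - s.ρ)) (min s.ρ (lam / (4 * (|s.m| + 1)))) := ⟨_, rfl⟩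
  have he0 : 0 < e := by
    rw [he]; exact lt_min (lt_min hδ (by linarith)) (lt_min hρ (by positivity))
  have heδ : e ≤ δ := by rw [he]; exact (min_le_left _ _).trans (min_le_left _ _)
  have heη : e ≤ s.η - s.ρ := by rw [he]; exact (min_le_left _ _).trans (min_le_right _ _)
  have heρ : e ≤ s.ρ := by rw [he]; exact (min_le_right _ _).trans (min_le_left _ _)
  have hel : e * (|s.m| + 1) ≤ lam / 4 := by
    have : e ≤ lam / (4 * (|s.m| + 1)) := by
      rw [he]; exact (min_le_right _ _).trans (min_le_right _ _)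
    rw [le_div_iff₀ (by positivity)] at this
    linarith
  have hel' : e ≤ lam / 4 := by
    have : e * 1 ≤ e * (|s.m| + 1) := mul_le_mul_of_nonneg_left (by linarith [abs_nonneg s.m]) he0.le
    linarith
  have hme : |s.m| * e ≤ lam / 4 - e := by nlinarith
  obtain ⟨r1, hr1, hball1⟩ := Metric.isOpen_iff.1 hV g hgV
  obtain ⟨τ, hτ⟩ : ∃ τ, τ = min (r1 / 2) (e / 4) := ⟨_, rfl⟩
  have hτ0 : 0 < τ := by rw [hτ]; exact lt_min (by linarith) (by linarith)
  have hτr : τ < r1 := by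
    have : τ ≤ r1 / 2 := by rw [hτ]; exact min_le_left _ _
    linarith
  have hτe : τ ≤ e / 4 := by rw [hτ]; exact min_le_right _ _
  -- comparison with `G`
  have hcmp : ∀ f ∈ Metric.ball g τ, ∀ y, 0 ≤ y → y ≤ 1 → |ex f.1 y - G y| ≤ τ := by
    intro f hf y h0 h1
    rw [← hgex y h0 h1]
    have h2 : dist f g < τ := hf
    rw [Subtype.dist_eq] at h2
    have h3 := (ContinuousMap.dist_apply_le_dist (f := f.1) (g := g.1)
      (projIcc 0 1 zero_le_one y)).trans h2.le
    rw [Subtype.dist_eq, Real.dist_eq] at h3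
    exact h3
  have main1 : ∀ f ∈ Metric.ball g τ, ∀ w, z ≤ w → w ≤ z + e → ∀ y, w + e / 2 ≤ y →
      y ≤ z + lam → (s.m + 1) * (y - w) ≤ ex f.1 y - ex f.1 w := by
    intro f hf w h1 h2 y h3 h4
    have h5 := hlap y w h1 (by linarith) h4
    have h6 := hcmp f hf y (by linarith [hz1.1]) (by linarith [hz1.2])
    have h7 := hcmp f hf w (by linarith [hz1.1]) (by linarith [hz1.2])
    rw [abs_le] at h6 h7
    have h8 : (s.m + 2) * (y - w) ≤ S * (y - w) := mul_le_mul_of_nonneg_right hSm (by linarith)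
    linarith [h6.1, h6.2, h7.1, h7.2]
  have main2 : ∀ f ∈ Metric.ball g τ, ∀ w, z ≤ w → w ≤ z + e → ∀ y, z + lam ≤ y →
      y ≤ s.L → (s.m - 1) * (y - w) ≤ ex f.1 y - ex f.1 w := by
    intro f hf w h1 h2 y h3 h4
    have h5 := hzmin y (by linarith) h4
    have h6 := hcmp f hf y (by linarith [hz1.1]) (by linarith)
    have h7 := hcmp f hf w (by linarith [hz1.1]) (by linarith [hz1.2])
    have h8 := hGδ w h1 (by linarith)
    rw [abs_le] at h6 h7 h8
    have h9 : -(|s.m| * e) ≤ s.m * (w - z) := by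
      have a1 : |s.m * (w - z)| ≤ |s.m| * e := by
        rw [abs_mul]
        exact mul_le_mul_of_nonneg_left (by rw [abs_of_nonneg (by linarith)]; linarith)
          (abs_nonneg _)
      linarith [neg_abs_le (s.m * (w - z))]
    have h10 : s.m * (y - z) = s.m * (y - w) + s.m * (w - z) := by ring
    linarith [h6.1, h6.2, h7.1, h7.2, h8.1, h8.2]
  refine ⟨⟨Metric.ball g τ, z, e, e / 2, z + lam, s.m + 1, Metric.isOpen_ball, by linarith [hz1.1],
    by linarith, by linarith, by linarith, by linarith [hz1.2], ?_⟩, ⟨?_, ?_, ?_, ?_, rfl, ?_⟩,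
    ?_, ?_⟩
  · exact main1
  · exact fun f hf => hVs (hball1 (Metric.ball_subset_ball hτr.le hf))
  · exact hz1.1
  · show z + e ≤ s.x + s.η
    linarith [hz1.2]
  · show e / 2 ≤ s.ρ / 2
    linarith
  · intro f hf w h1 h2 y h3 h4
    rcases le_total y (z + lam) with h5 | h5
    · have h6 := main1 f hf w h1 h2 y h3 h5
      have h7 : w + e / 2 ≤ y := h3
      have h8 : 0 ≤ y - w := by linarith
      linarith
    · exact main2 f hf w h1 h2 y h5 h4
  · exact fun f hf => hball1 (Metric.ball_subset_ball hτr.le hf)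
  · exact ⟨g, Metric.mem_ball_self hτ0⟩

/-- **The limit of a play**: an infinite one-sided derivative. -/
lemma limit (c : ℕ → St) (h0 : c 0 = st0) (hext : ∀ n, (c n).ext (c (n + 1))) (f : CPt)
    (hf : ∀ n, f ∈ (c n).U) : ∃ x : ℝ, 0 ≤ x ∧ x < 1 ∧ ∀ K : ℝ, ∃ δ > 0, x + δ ≤ 1 ∧
      ∀ y, x < y → y ≤ x + δ → K * (y - x) ≤ ex f.1 y - ex f.1 x := by
  have hmono : Monotone fun n => (c n).x := monotone_nat_of_le_succ fun n => (hext n).2.1
  have hanti : Antitone fun n => (c n).x + (c n).η := antitone_nat_of_succ_le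
    fun n => (hext n).2.2.1
  have hle : ∀ n k, (c n).x ≤ (c k).x + (c k).η := by
    intro n k
    have h1 := (c (max n k)).hρ
    have h2 := (c (max n k)).hη
    calc (c n).x ≤ (c (max n k)).x := hmono (le_max_left _ _)
      _ ≤ (c (max n k)).x + (c (max n k)).η := by linarith
      _ ≤ (c k).x + (c k).η := hanti (le_max_right _ _)
  obtain ⟨x, hx⟩ : ∃ x, x = ⨆ n, (c n).x := ⟨_, rfl⟩
  have hbdd : BddAbove (range fun n => (c n).x) := ⟨(c 0).x + (c 0).η, by
    rintro _ ⟨n, rfl⟩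
    exact hle n 0⟩
  have hx1 : ∀ n, (c n).x ≤ x := fun n => by rw [hx]; exact le_ciSup hbdd n
  have hx2 : ∀ n, x ≤ (c n).x + (c n).η := fun n => by rw [hx]; exact ciSup_le fun k => hle k n
  have hm : ∀ n, (c n).m = -4 + n := by
    intro n
    induction n with
    | zero => rw [h0]; show (-4:ℝ) = -4 + (0:ℕ); norm_num
    | succ n ih => rw [(hext n).2.2.2.2.1, ih]; push_cast; ring
  have hρ : ∀ n, (c n).ρ ≤ (1 / 4) / 2 ^ n := by
    intro n
    induction n with
    | zero => rw [h0]; show (1/4:ℝ) ≤ _; norm_num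
    | succ n ih =>
      refine (hext n).2.2.2.1.trans ?_
      rw [pow_succ]
      calc (c n).ρ / 2 ≤ ((1 / 4) / 2 ^ n) / 2 := by linarith
        _ = (1 / 4) / (2 ^ n * 2) := by field_simp
  have hLx : ∀ n, x < (c n).L := by
    intro n
    have := (c n).hL
    have := (c n).hρ
    linarith [hx2 n]
  refine ⟨x, ?_, ?_, ?_⟩
  · have := hx1 0
    exact (c 0).hx.trans this
  · exact lt_of_lt_of_le (hLx 0) (c 0).hL1
  · intro K
    obtain ⟨n, hn⟩ := exists_nat_gt (K + 5)
    refine ⟨(c n).L - x, by linarith [hLx n], by linarith [(c n).hL1], ?_⟩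
    intro y hy1 hy2
    -- find the window
    have hex : ∃ k, x + (c (n + k + 1)).ρ ≤ y := by
      obtain ⟨k, hk⟩ := exists_pow_lt_of_lt_one (show 0 < y - x by linarith)
        (show (1/2:ℝ) < 1 by norm_num)
      refine ⟨k, ?_⟩
      have h1 := hρ (n + k + 1)
      have h2 : (1 / 4) / (2:ℝ) ^ (n + k + 1) ≤ (1/2) ^ k := by
        rw [one_div_pow, div_div]
        apply one_div_le_one_div_of_le (by positivity)
        have h3 : (2:ℝ) ^ k ≤ 2 ^ (n + k + 1) := pow_le_pow_right₀ (by norm_num) (by omega)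
        have h4 : (0:ℝ) < 2 ^ (n + k + 1) := by positivity
        linarith
      linarith
    classical
    obtain ⟨k, hk1, hk2⟩ : ∃ k, x + (c (n + k + 1)).ρ ≤ y ∧ y ≤ (c (n + k)).L := by
      refine ⟨Nat.find hex, Nat.find_spec hex, ?_⟩
      rcases Nat.eq_zero_or_pos (Nat.find hex) with h1 | h1
      · rw [h1]
        show y ≤ (c n).L
        linarith
      · have h2 := Nat.find_min hex (Nat.sub_lt h1 one_pos)
        push Not at h2
        rw [show n + (Nat.find hex - 1) + 1 = n + Nat.find hex by omega] at h2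
        have h3 := (c (n + Nat.find hex)).hL
        linarith [hx2 (n + Nat.find hex)]
    have h4 := (hext (n + k)).2.2.2.2.2 f (hf _) x (hx1 _) (hx2 _) y hk1 hk2
    have h5 : K ≤ (c (n + k)).m - 1 := by
      rw [hm]
      push_cast
      have : (0:ℝ) ≤ k := by positivity
      linarith
    exact (mul_le_mul_of_nonneg_right h5 (by linarith)).trans h4

end Pool.Agent.Q68.BP
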